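import Pool.Agent.P8H89.GM.La
import Pool.Agent.Results.MP_dd84fd_nt.QuadraticNeighbourhoods

/-!
# Every large integer is a modulus without exceptional multiples plus very few elements of an arbitrary
set which meets every interval `[x, l x]`

The statement uses the following definitions from `Pool.Agent.H560R3.GB`: `g m`: the number of ordered
representations of `m` as a sum of two primes; `sing m`: the singular series
`2 C₂ ∏_{p ∣ m, p > 2} (p - 1) / (p - 2)`, where `C₂ = ∏_{p > 2} (1 - 1 / (p - 1) ^ 2)`.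

Method: the random integers `N - ∑ a` with the starting files' random choice of few elements `a` of the
set have, together with all their multiples, a thin large spectrum (`Pool.Agent.Y454.RM.t_LASH`); the
second moment method of the starting files for Goldbach pairs in windows (`Pool.Agent.Y885.tl_win0`) is
applied to all the multiples of all the neighbours (`Pool.Agent.P8H89.GM.las_mult`).
-/

set_option autoImplicit false

namespace Pool.Agent.Results.MP_92f640_nt.ElementsOfAnySet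

open Finset Pool.Agent.H560R3.GB

/-- `g n ≥ 1.3 n / log ^ 2 n`, and `g n` is `sing n * n / log ^ 2 n` up to a relative error of at
most `ε`. -/
def Rep (ε : ℝ) (n : ℕ) : Prop :=
  13 / 10 * ((n : ℝ) / Real.log n ^ 2) ≤ g n ∧
    |(g n : ℝ) - sing n * ((n : ℝ) / Real.log n ^ 2)| ≤ ε * (sing n * ((n : ℝ) / Real.log n ^ 2))

lemma rep_of (ε : ℝ) (m : ℕ) (hm : 3 ≤ m) (hw : Pool.Agent.W93.PG.WinP (min ε (1 / 200)) 1 m) :
    Rep ε m := by
  obtain ⟨h1, h2⟩ := MP_dd84fd_nt.QuadraticNeighbourhoods.holds_of 1 ε m hm hw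
  refine ⟨h1, ?_⟩
  have hmr : (3 : ℝ) ≤ m := by exact_mod_cast hm
  have hlog : 1 ≤ Real.log m := by
    rw [Real.le_log_iff_exp_le (by linarith)]
    linarith [Real.exp_one_lt_d9]
  have h3 := (h2 0 m (by omega) le_rfl (by
    rw [Nat.cast_zero, sub_zero]
    exact div_le_self (by linarith) (one_le_pow₀ hlog))).2
  rw [MP_dd84fd_nt.QuadraticNeighbourhoods.G_full, Nat.cast_zero, sub_zero] at h3
  exact h3

/-- The modulus `q` has no exceptional even multiples up to `y q`: every even integer `n` with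
`0 < n ≤ y q` and `q ∣ n` satisfies `Rep ε n`. -/
def NoExceptions (ε y : ℝ) (q : ℕ) : Prop :=
  ∀ n : ℕ, 0 < n → Even n → q ∣ n → (n : ℝ) ≤ y * q → Rep ε n

/-- For every `l ≥ 2`, `J` and `W` there is a constant `C` such that for every `ε > 0` there is an `N₀`
with the following property. Let `A` be an arbitrary set of integers which contains an element of every
interval `[x, l x]`, `x ≥ 1` (the constants `C` and `N₀` do not depend on `A`). Then every integer
`N ≥ N₀` is the sum of an integer `v ≥ N / 2` and of at most `C (log log N) ^ 2` distinct elements of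
`A`, where ALL the moduli `q` with `|q - v| ≤ log ^ W N` have no exceptional even multiples up to
`q log ^ J N`: every even integer `n` with `0 < n ≤ q log ^ J N` and `q ∣ n` is the sum of two primes in
at least `1.3 n / log ^ 2 n` ways, and in the number of ways which Hardy and Littlewood expect up to a
relative error of at most `ε`. -/
theorem result (l : ℕ) (hl : 2 ≤ l) (J W : ℕ) : ∃ C : ℝ, ∀ ε : ℝ, 0 < ε → ∃ N₀ : ℕ, ∀ A : Set ℕ,
    (∀ x : ℕ, 1 ≤ x → ∃ a ∈ A, x ≤ a ∧ a ≤ l * x) → ∀ N : ℕ, N₀ ≤ N →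
      ∃ S : Finset ℕ, (∀ a ∈ S, a ∈ A) ∧ (S.card : ℝ) ≤ C * Real.log (Real.log N) ^ 2 ∧
        ∃ v : ℕ, v + ∑ a ∈ S, a = N ∧ N ≤ 2 * v ∧
          ∀ q : ℕ, |(q : ℝ) - v| ≤ Real.log N ^ W → NoExceptions ε (Real.log N ^ J) q := by
  obtain ⟨C, hC⟩ := Pool.Agent.P8H89.GM.las_mult l hl J W 1
  refine ⟨C, fun ε hε => ?_⟩
  obtain ⟨N₀, h0⟩ := hC 3 (min ε (1 / 200)) (lt_min hε (by norm_num)) (Rep ε)
    (fun m hm _ hw => rep_of ε m hm hw)
  refine ⟨N₀, fun A hA N hN => ?_⟩
  obtain ⟨S, s1, s2, s3, s4⟩ := h0 A hA N hN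
  refine ⟨S, s1, s2, N - ∑ a ∈ S, a, by omega, by omega, fun q hq n hn0 hn2 hqn hnq => ?_⟩
  obtain ⟨h, rfl⟩ := hqn
  have hq1 : 1 ≤ q := by
    rcases Nat.eq_zero_or_pos q with rfl | h0
    · simp at hn0
    · exact h0
  have hh1 : 1 ≤ h := by
    rcases Nat.eq_zero_or_pos h with rfl | h0
    · simp at hn0
    · exact h0
  have hq0 : (0 : ℝ) < q := by exact_mod_cast hq1
  have hh2 : (h : ℝ) ≤ Real.log N ^ J := by
    push_cast at hnq
    rw [mul_comm] at hnq
    exact le_of_mul_le_mul_right hnq hq0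
  have hSN : ∑ a ∈ S, a ≤ N := by omega
  have e0 : ((N - ∑ a ∈ S, a : ℕ) : ℤ) = (N : ℤ) - ((∑ a ∈ S, a : ℕ) : ℤ) := Nat.cast_sub hSN
  have e : (h : ℤ) * ((N : ℤ) - ((∑ a ∈ S, a : ℕ) : ℤ) + ((q : ℤ) - ((N - ∑ a ∈ S, a : ℕ) : ℤ))) =
      ((q * h : ℕ) : ℤ) := by
    rw [e0]
    push_cast
    ring
  have h5 := s4 h hh1 hh2 ((q : ℤ) - ((N - ∑ a ∈ S, a : ℕ) : ℤ)) (by push_cast; exact hq)
    (by rw [e]; exact_mod_cast hn0) (by rw [e]; exact_mod_cast hn2.two_dvd)
  rw [e, Int.toNat_natCast] at h5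
  exact h5

end Pool.Agent.Results.MP_92f640_nt.ElementsOfAnySet
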