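import Pool.Agent.P8H14.GH.R

/-!
# Goldbach lower bounds on the multiples of `q`, at most scales `x`, with `y = x ^ (c / log log x)`: for every modulus
`q ≤ y`, and for all the moduli `q ≤ x ^ (7 / 10 - ρ)` which are not divisible by one of at most `log ^ C x` integers, all
larger than `y`

Definitions used (in `Pool.Agent.H560R3.GB`): `g n`: the number of ordered pairs of primes `(p₁, p₂)` with
`p₁ + p₂ = n`; `HL n`: the prediction `sing n * (n / (log n)²)` of Hardy and Littlewood, where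
`sing n = 2 C₂ ∏_{p ∣ n, p > 2} (p - 1) / (p - 2)` and `C₂ = ∏_{p > 2} (1 - 1 / (p - 1) ^ 2)`.

The theorem `ModuliUpToSevenTenths` of the starting files holds at all scales, with exceptional divisors larger than
`log ^ B x` only; a result for every modulus `q ≤ y` (or for all `q` up to a large power of `log x`, uniformly in the
power) at all scales would give new zero free regions for the real characters modulo `q`, by the remarks in the problem
file.

Proof (`Pool.Agent.P8H14.GH`). The exceptional divisors come from the conductors of the primitive characters `ψ` which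
have a large sum over the integers without prime factors up to `N ^ (3 / 10)` (`DRM`). At most scales there is a zero
free region for all characters of moduli up to `exp (12 l)`, with `l` of size `log N / log log N`; the mean square
theorem for the primes in short intervals at all fractions with denominators up to `exp l`, which follows from it, and
Gauss sums give small sums of `ψ` over the primes up to every `T ≥ N ^ (1 / 4)` for all conductors up to `exp l`
(`THC`, `ABL`); the integers without small prime factors are products of at most three primes (`RGC`), and so the bad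
conductors are larger than `exp l` (`MSC`).

From the starting files: the theorem of project GR of helper460 (`Pool.Agent.R460.GR`), the kernels and scales
(`Pool.Agent.W66`, `Pool.Agent.TH823`). Of this run: scales with zero free regions (`Pool.Agent.P8H13.GK`, by helper13),
`Pool.Agent.P8H14.PL`; the packages of this project are by helper54 (THC), helper52 (ABL, RGC), helper73 (MSC).
-/

set_option autoImplicit false

namespace Pool.Agent.Results.MP_92f640_nt.FewExceptionalDivisors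

open Finset
open Pool.Agent.H560R3.GB (g HL)

open Classical in
/-- The property `P` holds at most scales: the set of the positive integers `N` with the property `P` has upper
logarithmic density at least `1 - ε`. Precisely, for arbitrarily large `R` the sum of `1 / N` over the `N ≤ R`
without the property is at most `ε log R`. -/
def MostScales (ε : ℝ) (P : ℕ → Prop) : Prop :=
  ∀ R₀ : ℕ, ∃ R : ℕ, R₀ ≤ R ∧ ∑ N ∈ (Icc 1 R).filter (fun N => ¬ P N), (1 : ℝ) / N ≤ ε * Real.log R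

/-- The number `y = N ^ (c / log log N)`. -/
noncomputable def saving (c : ℝ) (N : ℕ) : ℝ := (N : ℝ) ^ (c / Real.log (Real.log N))

/-- The even integers `n ≡ a (mod q)` with `0 < n ≤ x` for which `g n < (1 / 20) HL n`. -/
def exceptional (x : ℝ) (q : ℕ) (a : ℤ) : Set ℕ :=
  {n : ℕ | 0 < n ∧ (n : ℝ) ≤ x ∧ 2 ∣ n ∧ (n : ℤ) ≡ a [ZMOD q] ∧ ¬ (1 / 20) * HL n ≤ g n}

/-- The even multiples `n` of `q` with `x / 2 < n ≤ x` and `g n < δ n / (log n)²`, as in the problem. -/
def few (δ x : ℝ) (q : ℕ) : Set ℕ :=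
  {n : ℕ | x / 2 < n ∧ (n : ℝ) ≤ x ∧ 2 ∣ n ∧ q ∣ n ∧ (g n : ℝ) < δ * (n / Real.log n ^ 2)}

/-- The modulus `q` is regular at the real scale `x`: in every residue class `a` modulo `q` all but at most
`x / (q (log x)^A)` of the even integers `n ≤ x` satisfy `g n ≥ (1 / 20) HL n`, and all but at most `x / (8 q)` of
the even multiples `n` of `q` in `(x / 2, x]` satisfy `g n ≥ n / (20 (log n)²)`, which is the assertion of the problem
for `x` and `q`, with `δ = 1 / 20`. -/
def Regular (A : ℕ) (x : ℝ) (q : ℕ) : Prop :=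
  (∀ a : ℤ, (exceptional x q a).Finite ∧ ((exceptional x q a).ncard : ℝ) ≤ x / (q * Real.log x ^ A)) ∧
    (few (1 / 20) x q).Finite ∧ ((few (1 / 20) x q).ncard : ℝ) ≤ x / (8 * q)

theorem cnt_eq (n : ℕ) : Pool.Agent.W93.PG.cnt n 0 n = g n := by
  unfold Pool.Agent.W93.PG.cnt g
  refine card_bij (fun p _ => (p, n - p)) ?_ ?_ ?_
  · intro p hp
    rw [mem_filter, mem_Ioc] at hp
    rw [mem_filter, HasAntidiagonal.mem_antidiagonal]
    exact ⟨by simp only; omega, hp.2⟩
  · intro p _ p' _ h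
    exact congrArg Prod.fst h
  · rintro ⟨a, b⟩ h
    rw [mem_filter, HasAntidiagonal.mem_antidiagonal] at h
    obtain ⟨h1, h2, h3⟩ := h
    simp only at h1 h2 h3
    have ha := h2.pos
    refine ⟨a, ?_, ?_⟩
    · rw [mem_filter, mem_Ioc]
      refine ⟨⟨ha, by omega⟩, h2, ?_⟩
      have : n - a = b := by omega
      rw [this]
      exact h3
    · have : n - a = b := by omega
      simp [this]

lemma most_of {ε : ℝ} {P P' : ℕ → Prop} (h : Pool.Agent.TH823.PS.Most ε P) (hPP : ∀ N, P N → P' N) :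
    MostScales ε P' := by
  classical
  intro R₀
  obtain ⟨R, hR, h1⟩ := h R₀
  refine ⟨R, hR, le_trans ?_ h1⟩
  refine sum_le_sum_of_subset_of_nonneg ?_ fun _ _ _ => by positivity
  intro N hN
  rw [mem_filter] at hN ⊢
  exact ⟨hN.1, fun h2 => hN.2 (hPP N h2)⟩

lemma saving_eq (c : ℝ) {N : ℕ} (hN : 1 ≤ N) : saving c N = Pool.Agent.P8H14.QP.sav c N := by
  unfold saving Pool.Agent.P8H14.QP.sav
  rw [Real.rpow_def_of_pos (by exact_mod_cast hN)]
  congr 1
  ring

lemma regular_of {x : ℝ} {A q : ℕ} (hx8 : Real.exp 8 ≤ x) (hq : 1 ≤ q)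
    (key : ∀ a : ℤ, Pool.Agent.P8H14.GH.ClassOK (fun n => (1 / 20) * HL n ≤ g n) (A + 1) x q a) :
    Regular A x q := by
  have hx0 : 0 < x := lt_of_lt_of_le (Real.exp_pos _) hx8
  have hl8 : 8 ≤ Real.log x := by rw [Real.le_log_iff_exp_le hx0]; exact hx8
  have hq0 : (0 : ℝ) < q := by exact_mod_cast hq
  have key : ∀ a : ℤ, (exceptional x q a).Finite ∧
      ((exceptional x q a).ncard : ℝ) ≤ x / (q * Real.log x ^ (A + 1)) := fun a => key a
  refine ⟨fun a => ⟨(key a).1, (key a).2.trans ?_⟩, ?_⟩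
  · apply div_le_div_of_nonneg_left hx0.le (by positivity)
    exact mul_le_mul_of_nonneg_left (pow_le_pow_right₀ (by linarith) (Nat.le_succ _)) hq0.le
  · obtain ⟨f1, f2⟩ := key 0
    have hsub : few (1 / 20) x q ⊆ exceptional x q 0 := by
      rintro n ⟨e1, e2, e3, e4, e5⟩
      have hn0 : 0 < n := by
        have : (0 : ℝ) < n := by linarith
        exact_mod_cast this
      refine ⟨hn0, e2, e3, ?_, ?_⟩
      · exact (Int.modEq_zero_iff_dvd).2 (by exact_mod_cast e4)
      · intro h1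
        have h2 := Pool.Agent.R460.GS.one_le_sing n
        have h3 : (0 : ℝ) ≤ (n : ℝ) / Real.log n ^ 2 := by positivity
        unfold Pool.Agent.H560R3.GB.HL at h1
        have h4 : (n : ℝ) / Real.log n ^ 2 ≤ Pool.Agent.H560R3.GB.sing n * ((n : ℝ) / Real.log n ^ 2) :=
          le_mul_of_one_le_left h3 h2
        linarith
    refine ⟨f1.subset hsub, ?_⟩
    have h4 : ((few (1 / 20) x q).ncard : ℝ) ≤ ((exceptional x q 0).ncard : ℝ) := by
      exact_mod_cast Set.ncard_le_ncard hsub f1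
    refine h4.trans (f2.trans ?_)
    apply div_le_div_of_nonneg_left hx0.le (by positivity)
    rw [mul_comm (8 : ℝ)]
    apply mul_le_mul_of_nonneg_left _ hq0.le
    calc (8 : ℝ) ≤ Real.log x := hl8
      _ = Real.log x ^ 1 := (pow_one _).symm
      _ ≤ Real.log x ^ (A + 1) := pow_le_pow_right₀ (by linarith) (by omega)

/-- the integers up to `X` which are divisible by a member of `D` -/
lemma count_div (D : Finset ℕ) (Y X : ℝ) (hY : 0 < Y) (hX : 0 ≤ X) (hD : ∀ d ∈ D, Y < (d : ℝ)) (S : Set ℕ)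
    (hS : ∀ q ∈ S, 1 ≤ q ∧ (q : ℝ) ≤ X ∧ ∃ d ∈ D, d ∣ q) : S.Finite ∧ (S.ncard : ℝ) ≤ D.card * (X / Y) := by
  classical
  have hsub : S ⊆ ((D.biUnion fun d => (Icc 1 ⌊X⌋₊).filter (fun q => d ∣ q) : Finset ℕ) : Set ℕ) := by
    intro q hq
    obtain ⟨h1, h2, d, h3, h4⟩ := hS q hq
    rw [mem_coe, mem_biUnion]
    exact ⟨d, h3, mem_filter.2 ⟨mem_Icc.2 ⟨h1, Nat.le_floor h2⟩, h4⟩⟩
  have hfin : S.Finite := (Finset.finite_toSet _).subset hsub
  refine ⟨hfin, ?_⟩
  have h1 := Set.ncard_le_ncard hsub (Finset.finite_toSet _)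
  rw [Set.ncard_coe_finset] at h1
  have h2 := h1.trans card_biUnion_le
  have h3 : (S.ncard : ℝ) ≤ ∑ d ∈ D, (((Icc 1 ⌊X⌋₊).filter (fun q => d ∣ q)).card : ℝ) := by exact_mod_cast h2
  refine h3.trans ?_
  have h4 : ∀ d ∈ D, (((Icc 1 ⌊X⌋₊).filter (fun q => d ∣ q)).card : ℝ) ≤ X / Y := by
    intro d hd
    have hd0 : (0 : ℝ) < d := lt_trans hY (hD d hd)
    have h5 : ((Icc 1 ⌊X⌋₊).filter (fun q => d ∣ q)).card = ⌊X⌋₊ / d := by
      have h6 : (Icc 1 ⌊X⌋₊).filter (fun q => d ∣ q) = (Ioc 0 ⌊X⌋₊).filter (fun q => d ∣ q) := by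
        ext q
        simp only [mem_filter, mem_Icc, mem_Ioc]
        constructor
        · rintro ⟨⟨a, b⟩, c⟩; exact ⟨⟨by omega, b⟩, c⟩
        · rintro ⟨⟨a, b⟩, c⟩; exact ⟨⟨by omega, b⟩, c⟩
      rw [h6, Nat.Ioc_filter_dvd_card_eq_div]
    rw [h5]
    calc ((⌊X⌋₊ / d : ℕ) : ℝ) ≤ (⌊X⌋₊ : ℝ) / d := Nat.cast_div_le
      _ ≤ X / d := by
          apply div_le_div_of_nonneg_right (Nat.floor_le hX) hd0.le
      _ ≤ X / Y := div_le_div_of_nonneg_left hX hY (hD d hd).le
  refine (sum_le_sum h4).trans (le_of_eq ?_)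
  rw [sum_const, nsmul_eq_mul]

/-- Let `0 < ρ`, `0 < ε` and `A` be fixed. There are `C` and `c > 0` such that for the `N` in a set of upper logarithmic
density at least `1 - ε`, and all real `x` with `N ≤ x < N + 1`, the following holds with `y = N ^ (c / log log N)`.
There is a set `D` of at most `(log x) ^ C` integers, all of them larger than `y`, such that every integer
`1 ≤ q ≤ x ^ (7 / 10 - ρ)` which is not divisible by a member of `D` is regular; every integer `1 ≤ q ≤ y` is regular;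
and for every `1 ≤ X ≤ x ^ (7 / 10 - ρ)` at most `X / y` of the integers `1 ≤ q ≤ X` are not regular. -/
theorem result (ρ ε : ℝ) (hρ : 0 < ρ) (hρ1 : ρ < 7 / 10) (hε : 0 < ε) (A : ℕ) :
    ∃ (C : ℕ) (c : ℝ), 0 < c ∧ MostScales ε (fun N => ∀ x : ℝ, (N : ℝ) ≤ x → x < N + 1 →
      (∃ D : Finset ℕ, (D.card : ℝ) ≤ Real.log x ^ C ∧ (∀ d ∈ D, saving c N < (d : ℝ)) ∧
        ∀ q : ℕ, 1 ≤ q → (q : ℝ) ≤ x ^ (7 / 10 - ρ) → (∀ d ∈ D, ¬ d ∣ q) → Regular A x q) ∧
      (∀ q : ℕ, 1 ≤ q → (q : ℝ) ≤ saving c N → Regular A x q) ∧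
      ∀ X : ℝ, 1 ≤ X → X ≤ x ^ (7 / 10 - ρ) →
        {q : ℕ | 1 ≤ q ∧ (q : ℝ) ≤ X ∧ ¬ Regular A x q}.Finite ∧
        (({q : ℕ | 1 ≤ q ∧ (q : ℝ) ≤ X ∧ ¬ Regular A x q}.ncard : ℕ) : ℝ) ≤ X / saving c N) := by
  obtain ⟨C, c, hc, hmain⟩ := Pool.Agent.P8H14.GH.main (fun n => (1 / 20) * HL n ≤ g n) 0
    ⟨1, fun n hn _ hw => by
      have h1 := hw 0 n (by omega) le_rfl (by simp)
      rw [cnt_eq] at h1
      refine le_trans (le_of_eq ?_) h1
      unfold Pool.Agent.H560R3.GB.HL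
      push_cast
      ring⟩ ρ ε hρ hε (A + 1)
  obtain ⟨N₂, hN₂16, hN₂⟩ := Pool.Agent.P8H14.QP.Len.sav_log (c := c) hc C (2 ^ C)
  obtain ⟨N₃, hN₃⟩ := Pool.Agent.P8H14.GH.sav_le_rpow c (ρ := 7 / 10 - ρ) (by linarith)
  refine ⟨C, c, hc, most_of (hmain (N₂ + N₃ + ⌈Real.exp 8⌉₊ + 16)) fun N hN => ?_⟩
  obtain ⟨hN1, hN2⟩ := hN
  intro x hx1 hx2
  obtain ⟨D, hD1, hD2, hD3⟩ := hN2 x hx1 hx2
  have hN16 : 16 ≤ N := by omega
  have hNr : (16 : ℝ) ≤ N := by exact_mod_cast hN16
  have hx8 : Real.exp 8 ≤ x := by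
    have h1 : ((⌈Real.exp 8⌉₊ : ℕ) : ℝ) ≤ N := by exact_mod_cast (by omega : ⌈Real.exp 8⌉₊ ≤ N)
    exact (Nat.le_ceil _).trans (h1.trans hx1)
  have hx0 : 0 < x := lt_of_lt_of_le (Real.exp_pos _) hx8
  rw [saving_eq c (by omega)]
  have hs0 : 0 < Pool.Agent.P8H14.QP.sav c N := Pool.Agent.P8H14.QP.sav_pos _ _
  have hs1 : 1 ≤ Pool.Agent.P8H14.QP.sav c N := Pool.Agent.P8H14.QP.Len.sav_one_le hc.le hN16
  have hD2' : ∀ d ∈ D, Pool.Agent.P8H14.QP.sav c N * Pool.Agent.P8H14.QP.sav c N < (d : ℝ) := by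
    intro d hd
    rw [Pool.Agent.P8H14.QP.Len.sav_mul, ← two_mul]
    exact hD2 d hd
  have hD2'' : ∀ d ∈ D, Pool.Agent.P8H14.QP.sav c N < (d : ℝ) := fun d hd =>
    lt_of_le_of_lt (le_mul_of_one_le_left hs0.le hs1) (hD2' d hd)
  have hreg : ∀ q : ℕ, 1 ≤ q → (q : ℝ) ≤ x ^ (7 / 10 - ρ) → (∀ d ∈ D, ¬ d ∣ q) → Regular A x q :=
    fun q h1 h2 h3 => regular_of hx8 h1 (hD3 q h1 h2 h3)
  refine ⟨⟨D, hD1, hD2'', hreg⟩, fun q hq hqy => hreg q hq ?_ fun d hd hdq => ?_, fun X hX1 hX2 => ?_⟩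
  · refine hqy.trans ((hN₃ N (by omega)).trans ?_)
    exact Real.rpow_le_rpow (Nat.cast_nonneg _) hx1 (by linarith)
  · have h1 : (d : ℝ) ≤ q := by exact_mod_cast Nat.le_of_dvd hq hdq
    linarith [hD2'' d hd]
  · have h1 := count_div D _ X (mul_pos hs0 hs0) (by linarith) hD2'
      {q : ℕ | 1 ≤ q ∧ (q : ℝ) ≤ X ∧ ¬ Regular A x q} (by
        rintro q ⟨h1, h2, h3⟩
        refine ⟨h1, h2, ?_⟩
        by_contra hcon
        push Not at hcon
        exact h3 (hreg q h1 (h2.trans hX2) hcon))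
    refine ⟨h1.1, h1.2.trans ?_⟩
    have hlog : Real.log x ≤ 2 * Real.log N := by
      have h2 : x ≤ (N : ℝ) ^ 2 := by nlinarith
      calc Real.log x ≤ Real.log ((N : ℝ) ^ 2) := Real.log_le_log hx0 h2
        _ = 2 * Real.log N := by rw [Real.log_pow]; norm_num
    have hlog0 : 0 ≤ Real.log x := Real.log_nonneg (by linarith)
    have h3 : (D.card : ℝ) ≤ Pool.Agent.P8H14.QP.sav c N := by
      refine hD1.trans ?_
      calc Real.log x ^ C ≤ (2 * Real.log N) ^ C := pow_le_pow_left₀ hlog0 hlog _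
        _ = 2 ^ C * Real.log N ^ C := mul_pow _ _ _
        _ ≤ _ := hN₂ N (by omega)
    have hX0 : 0 ≤ X := by linarith
    calc (D.card : ℝ) * (X / (Pool.Agent.P8H14.QP.sav c N * Pool.Agent.P8H14.QP.sav c N)) ≤
        Pool.Agent.P8H14.QP.sav c N * (X / (Pool.Agent.P8H14.QP.sav c N * Pool.Agent.P8H14.QP.sav c N)) :=
          mul_le_mul_of_nonneg_right h3 (by positivity)
      _ = X / Pool.Agent.P8H14.QP.sav c N := by field_simp

end Pool.Agent.Results.MP_92f640_nt.FewExceptionalDivisors
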