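import Pool.Agent.P8H14.GQ.R

/-!
# Goldbach representations of the multiples of large moduli: at most scales `N`, all moduli `q ≥ N / y` near almost all
members of every family of small additive energy, with `y = N ^ (c / log log N)`

Proof (`Pool.Agent.P8H14.GQ`). At a scale with zero free regions, the primes minus their model
`Λ_Q(n) = ∑_{r ≤ Q} μ(r) c_r(n) / φ(r)`, `Q` a power of `y`, have a correlation of at most `N / log ^ A N` with arbitrary
weights at all but a proportion of `y ^ (-K)` of the members of every family of small additive energy; the same holds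
at all smaller scales `N' ≥ √N`. It is applied to the families `i (v + t)`, `i ≤ y`, `|t| ≤ y`, or more precisely to
their members in dyadic intervals, with the weights `log p` at the primes and `Λ_Q`, reflected. This gives the number of
Goldbach representations in terms of the correlation of the model with its reflection. This is evaluated for each even
integer, with the singular series as an infinite product.

From the starting files: the zero-free region inputs and the kernels (`Pool.Agent.W66`), scales without exceptional
characters and families (`Pool.Agent.TH823`), exponential sums over primes (`Pool.Agent.H373R2`, `Pool.Agent.H807R2`),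
from the weighted number to the number of the representations (`Pool.Agent.W93.PG`, and
`MP_92f640_nt.StructuredLargeModuli`). Of this run: scales with zero free regions and the model (`Pool.Agent.P8H13.GK`,
`Pool.Agent.P8H13.PK`), primes minus the model along families (`Pool.Agent.P8H14.QP`, `Pool.Agent.P8H14.PL`), singular
series (`Pool.Agent.P8H14.SS`); the packages of this project are by helper89 (correlation of the model with its
reflection), helper52 (singular series), helper4 (weights, subfamilies), helper55 (from the model to Goldbach pairs).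
-/

set_option autoImplicit false

namespace Pool.Agent.Results.MP_92f640_nt.QuasiPowerLargeModuli

open Finset Polynomial

open Classical in
/-- The property `P` holds at most scales: the set of the positive integers `N` with the property `P` has upper
logarithmic density at least `1 - η`. Precisely, for arbitrarily large `R` the sum of `1 / N` over the `N ≤ R`
without the property is at most `η log R`. -/
def MostScales (η : ℝ) (P : ℕ → Prop) : Prop :=
  ∀ R₀ : ℕ, ∃ R : ℕ, R₀ ≤ R ∧ ∑ N ∈ (Icc 1 R).filter (fun N => ¬ P N), (1 : ℝ) / N ≤ η * Real.log R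

/-- The number `y = N ^ (c / log log N)`. -/
noncomputable def saving (c : ℝ) (N : ℕ) : ℝ := (N : ℝ) ^ (c / Real.log (Real.log N))

/-- The additive energy of order `p` of the family `s 1, ..., s x`: the number of the solutions of
`s (v 1) + ... + s (v p) = s (w 1) + ... + s (w p)` with all `v i`, `w i` in `{1, ..., x}`. -/
def energy (p x : ℕ) (s : ℕ → ℤ) : ℕ :=
  (((Fintype.piFinset fun _ : Fin p => Icc 1 x) ×ˢ (Fintype.piFinset fun _ : Fin p => Icc 1 x)).filter
    (fun q => ∑ i, s (q.1 i) = ∑ i, s (q.2 i))).card

/-- The family `s 1, ..., s x` of integers is admitted at the scale `N`: for some order `p ≤ P` its additive energy is at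
most `y x ^ (2 p) / N`, or `s m = b + f m` for one of the nonconstant polynomials `f` of the finite set `𝓕`, an integer
`b` and `x ^ deg f ≥ N / y`. -/
def Family (P : ℕ) (𝓕 : Finset ℤ[X]) (y : ℝ) (N x : ℕ) (s : ℕ → ℤ) : Prop :=
  (∃ p : ℕ, 1 ≤ p ∧ p ≤ P ∧ (energy p x s : ℝ) * N ≤ y * (x : ℝ) ^ (2 * p)) ∨
    ∃ f ∈ 𝓕, 1 ≤ f.natDegree ∧ (N : ℝ) ≤ y * (x : ℝ) ^ f.natDegree ∧ ∃ b : ℤ, ∀ m ∈ Icc 1 x, s m = b + f.eval (m : ℤ)

/-- `g n`, the number of the ordered pairs of primes with the sum `n`. -/
def g (n : ℕ) : ℕ := ((antidiagonal n).filter (fun q : ℕ × ℕ => q.1.Prime ∧ q.2.Prime)).card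

/-- The twin prime constant `C₂ = ∏_{p > 2} (1 - 1 / (p - 1) ^ 2)`, as the infimum of the finite products. -/
noncomputable def twinPrimeConstant : ℝ := ⨅ z : ℕ, ∏ p ∈ (Icc 3 z).filter Nat.Prime, (1 - 1 / ((p : ℝ) - 1) ^ 2)

/-- The singular series `2 C₂ ∏_{p ∣ n, p > 2} (p - 1) / (p - 2)`. -/
noncomputable def singularSeries (n : ℕ) : ℝ :=
  2 * twinPrimeConstant * ∏ p ∈ n.primeFactors.filter (fun p => 2 < p), ((p : ℝ) - 1) / ((p : ℝ) - 2)

/-- The even integer `n` is represented as predicted: `g n ≥ 1.3 n / log ^ 2 n`, and `g n` is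
`singularSeries n * n / log ^ 2 n` up to a relative error of at most `ε`, and moreover
`|∑_{k ≤ z} Λ(k) Λ(n - k) - singularSeries n * z| ≤ n / log ^ V n` for all `z < n`. -/
def Represented (ε : ℝ) (V n : ℕ) : Prop :=
  13 / 10 * ((n : ℝ) / Real.log n ^ 2) ≤ g n ∧
    |(g n : ℝ) - singularSeries n * ((n : ℝ) / Real.log n ^ 2)| ≤ ε * (singularSeries n * ((n : ℝ) / Real.log n ^ 2)) ∧
      ∀ z : ℕ, z < n → |∑ k ∈ Icc 1 z, ArithmeticFunction.vonMangoldt k * ArithmeticFunction.vonMangoldt (n - k) -
        singularSeries n * z| ≤ n / Real.log n ^ V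

/-- ALL the moduli `q ≥ N / y` at a distance of at most `y` from `v` have no exceptional even multiples up to `N`:
ALL the even multiples `0 < n ≤ N` of `q` are represented as predicted. -/
def NoExceptions (ε : ℝ) (V : ℕ) (y : ℝ) (N : ℕ) (v : ℤ) : Prop :=
  ∀ q : ℕ, |((q : ℤ) : ℝ) - v| ≤ y → (N : ℝ) ≤ y * q → ∀ n : ℕ, 0 < n → n ≤ N → Even n → q ∣ n → Represented ε V n

open Classical in
/-- Let `P`, `V`, `ε > 0`, `η > 0` and a finite set `𝓕` of integer polynomials be fixed. There is a `c > 0` such that at
most scales `N`, that is on a set of `N` of upper logarithmic density at least `1 - η`, the following holds with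
`y = N ^ (c / log log N)`: for every admitted family `s 1, ..., s x` (additive energy of an order `p ≤ P` at most
`y x ^ (2 p) / N`, or the values of a polynomial of `𝓕` plus a constant, with `x ^ deg f ≥ N / y`), all but at most
`x / y` of the members `v = s m` have the following property: ALL the moduli `q ≥ N / y` with `|q - v| ≤ y` have no
exceptional even multiples up to `N`; all even multiples `n ≤ N` of `q` satisfy `g n ≥ 1.3 n / log ^ 2 n`, and the formula of
Hardy and Littlewood, up to `ε` for `g n` and up to `n / log ^ V n` for the weighted numbers of representations.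

For example (`s m = m`, `x = N`, `p = 1`) this holds for all but at most `N / y` of the moduli `N / y ≤ q ≤ N`. -/
theorem result (P V : ℕ) (𝓕 : Finset ℤ[X]) (ε η : ℝ) (hε : 0 < ε) (hη : 0 < η) : ∃ c : ℝ, 0 < c ∧
    MostScales η (fun N => ∀ (x : ℕ) (s : ℕ → ℤ), Family P 𝓕 (saving c N) N x s →
      (((Icc 1 x).filter (fun m => ¬ NoExceptions ε V (saving c N) N (s m))).card : ℝ) ≤ x / saving c N) := by
  obtain ⟨c, hc, hmost⟩ := Pool.Agent.P8H14.GQ.main P V 𝓕 hε hη
  refine ⟨c, hc, ?_⟩
  intro R₀
  obtain ⟨R, hR, h3⟩ := hmost R₀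
  refine ⟨R, hR, le_trans ?_ h3⟩
  apply sum_le_sum_of_subset_of_nonneg
  · intro N hN
    simp only [mem_filter] at hN ⊢
    refine ⟨hN.1, fun hcon => hN.2 ?_⟩
    have hN1 : 1 ≤ N := (mem_Icc.1 hN.1).1
    have hs : saving c N = Pool.Agent.P8H14.QP.sav c N := by
      unfold saving Pool.Agent.P8H14.QP.sav
      have hN0 : (0 : ℝ) < N := by exact_mod_cast hN1
      rw [Real.rpow_def_of_pos hN0]
      congr 1
      ring
    intro x s hF
    rw [hs] at hF ⊢
    refine le_trans ?_ (hcon x s hF)
    apply Nat.cast_le.2
    apply card_le_card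
    intro m hm
    rw [mem_filter] at hm ⊢
    refine ⟨hm.1, ?_⟩
    by_contra hB
    apply hm.2
    intro q h1 h2 n hn hnN hev hqn
    by_contra hR
    apply hB
    refine ⟨q, h1, h2, n, hn, hnN, hev, hqn, fun hh => hR ?_⟩
    exact ⟨hh.1.1, hh.1.2, hh.2⟩
  · intro _ _ _
    positivity

end Pool.Agent.Results.MP_92f640_nt.QuasiPowerLargeModuli
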