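import Pool.Agent.P8H89.GM.Rs
import Pool.Agent.Y958.RM.Rnd
import Pool.Agent.Results.MP_dd84fd_nt.QuadraticNeighbourhoods

/-!
# Goldbach representations of the multiples of all moduli near almost all sums of independent random integers

The statement uses the following definitions from `Pool.Agent.H560R3.GB`: `g m`: the number of ordered
representations of `m` as a sum of two primes; `sing m`: the singular series
`2 C₂ ∏_{p ∣ m, p > 2} (p - 1) / (p - 2)`, where `C₂ = ∏_{p > 2} (1 - 1 / (p - 1) ^ 2)`.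

Method: all the multiples of a sum of independent random integers have a thin large spectrum
(`Pool.Agent.Y958.RM.lawh`); the second moment method of the starting files for Goldbach pairs in
windows (`Pool.Agent.Y885.tl_windows`) is applied to all the multiples of all the neighbours
(`Pool.Agent.P8H89.GM.mult`).
-/

set_option autoImplicit false

namespace Pool.Agent.Results.MP_92f640_nt.RandomSumModuli

open Finset Pool.Agent.H560R3.GB

/-- `g n ≥ 1.3 n / log ^ 2 n`, and `g n` is `sing n * n / log ^ 2 n` up to a relative error of at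
most `ε`. -/
def Rep (ε : ℝ) (n : ℕ) : Prop :=
  13 / 10 * ((n : ℝ) / Real.log n ^ 2) ≤ g n ∧
    |(g n : ℝ) - sing n * ((n : ℝ) / Real.log n ^ 2)| ≤ ε * (sing n * ((n : ℝ) / Real.log n ^ 2))

lemma rep_of (ε : ℝ) (m : ℕ) (hm : 3 ≤ m) (hw : Pool.Agent.W93.PG.WinP (min ε (1 / 200)) 1 m) :
    Rep ε m := by
  obtain ⟨h1, h2⟩ := MP_dd84fd_nt.QuadraticNeighbourhoods.holds_of 1 ε m hm hw
  refine ⟨h1, ?_⟩
  have hmr : (3 : ℝ) ≤ m := by exact_mod_cast hm
  have hlog : 1 ≤ Real.log m := by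
    rw [Real.le_log_iff_exp_le (by linarith)]
    linarith [Real.exp_one_lt_d9]
  have h3 := (h2 0 m (by omega) le_rfl (by
    rw [Nat.cast_zero, sub_zero]
    exact div_le_self (by linarith) (one_le_pow₀ hlog))).2
  rw [MP_dd84fd_nt.QuadraticNeighbourhoods.G_full, Nat.cast_zero, sub_zero] at h3
  exact h3

/-- The modulus `q` has no exceptional even multiples up to `y q`: every even integer `n` with
`0 < n ≤ y q` and `q ∣ n` satisfies `Rep ε n`. -/
def NoExceptions (ε y : ℝ) (q : ℕ) : Prop :=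
  ∀ n : ℕ, 0 < n → Even n → q ∣ n → (n : ℝ) ≤ y * q → Rep ε n

/-- ALL the moduli `q ≥ 1` at a distance of at most `Q` from the integer `v` have no exceptional even
multiples up to `y q`. -/
def Good (ε y : ℝ) (Q v : ℤ) : Prop := ∀ q : ℕ, 1 ≤ q → |(q : ℤ) - v| ≤ Q → NoExceptions ε y q

/-- The set `T` of scales below `k` is rich: it contains more than three fifths of all the scales, more
than one half of the `m` lowest scales, and a positive proportion of the `m` highest scales (the last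
two conditions are void for `m ≤ D log k`). -/
structure Rich (δ : ℝ) (D k : ℕ) (T : Finset ℕ) : Prop where
  lt : ∀ j ∈ T, j < k
  all : (3 / 5 + δ) * k ≤ (T.card : ℝ)
  low : ∀ m ≤ k, (1 / 2 + δ) * m ≤ ((T.filter fun j => j < m).card : ℝ) + D * Real.log k
  high : ∀ m ≤ k, δ * m ≤ ((T.filter fun j => k - m ≤ j).card : ℝ) + D * Real.log k

open Classical in
/-- The probability of the event `E` if `x 0, ..., x (k - 1)` are independent random integers, where
`x j` takes its values in the finite set `s j`, and the value `x` with the probability `p j x`. -/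
noncomputable def Prob (k : ℕ) (s : ℕ → Finset ℤ) (p : ℕ → ℤ → ℝ) (E : (Fin k → ℤ) → Prop) : ℝ :=
  ∑ x ∈ Fintype.piFinset (fun j : Fin k => s j), if E x then ∏ j : Fin k, p j (x j) else 0

/-- a bad value of the sum gives a bad multiple of a neighbour (used in the proof only) -/
lemma bad_of (ε : ℝ) (J W k : ℕ) (z : ℤ) (h : ¬ Good ε ((k : ℝ) ^ J) ((k : ℤ) ^ W) z) :
    ∃ h : ℕ, 1 ≤ h ∧ h ≤ k ^ J ∧ ∃ r : ℤ, |r| ≤ (k : ℤ) ^ W ∧ 0 < (h : ℤ) * (z + r) ∧
      2 ∣ (h : ℤ) * (z + r) ∧ ¬ Rep ε ((h : ℤ) * (z + r)).toNat := by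
  unfold Good NoExceptions at h
  push Not at h
  obtain ⟨q, hq1, hqz, n, hn0, hn2, ⟨h, rfl⟩, hnq, hbad⟩ := h
  have hq0 : (0 : ℝ) < q := by exact_mod_cast hq1
  have hh1 : 1 ≤ h := by
    rcases Nat.eq_zero_or_pos h with rfl | h0
    · simp at hn0
    · exact h0
  have hh2 : (h : ℝ) ≤ (k : ℝ) ^ J := by
    push_cast at hnq
    rw [mul_comm] at hnq
    exact le_of_mul_le_mul_right hnq hq0
  have e : (h : ℤ) * (z + ((q : ℤ) - z)) = ((q * h : ℕ) : ℤ) := by push_cast; ring
  refine ⟨h, hh1, by exact_mod_cast hh2, (q : ℤ) - z, hqz, ?_⟩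
  rw [e, Int.toNat_natCast]
  exact ⟨by exact_mod_cast hn0, by exact_mod_cast hn2.two_dvd, hbad⟩

open Classical in
/-- Let `b ≥ 2`, `B ≥ 1`, `D`, `J`, `W`, `U`, `η > 0`, `δ > 0` and `ε > 0` be fixed, let `k` be large,
and let `T` be an arbitrary rich set of scales below `k`.

(1) Let `x 0, ..., x (k - 1)` be arbitrary independent random integers with `|x j| ≤ B b ^ j` such that,
for all `j` in `T`, no interval of the length `b ^ j / B` contains `x j` with a probability larger than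
`1 - η` (nothing is assumed for the other `j`: these `x j` may be constants). Let `c` be an arbitrary
integer with `|c| ≤ B b ^ k`. Then, with a probability of at least `1 - 1 / k ^ U`, ALL the moduli
`q ≥ 1` at a distance of at most `k ^ W` from `c + x 0 + ... + x (k - 1)` have no exceptional even
multiples up to `k ^ J q`: every even integer `n` with `0 < n ≤ k ^ J q` and `q ∣ n` is the sum of two
primes in at least `1.3 n / log ^ 2 n` ways, and in the number of ways which Hardy and Littlewood expect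
up to a relative error of at most `ε`.

(2) Let `A 0, ..., A (k - 1)` be arbitrary nonempty sets of digits in base `b`, such that `A j` has at
least two elements if `j` is in `T` (the other digits may be prescribed). Then the same holds for all
the integers `v < b ^ k` whose digit at the place `j` belongs to `A j` for all `j < k`, with at most
`(#A 0 ⋯ #A (k - 1)) / k ^ U` exceptions. -/
theorem result (b B D J W U : ℕ) (hb : 2 ≤ b) (hB : 1 ≤ B) (η δ ε : ℝ) (hη : 0 < η) (hδ : 0 < δ)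
    (hε : 0 < ε) : ∃ k₀ : ℕ, ∀ k : ℕ, k₀ ≤ k → ∀ T : Finset ℕ, Rich δ D k T →
      (∀ (s : ℕ → Finset ℤ) (p : ℕ → ℤ → ℝ),
        (∀ j < k, (∀ x ∈ s j, 0 ≤ p j x ∧ |x| ≤ (B : ℤ) * (b : ℤ) ^ j) ∧ ∑ x ∈ s j, p j x = 1) →
        (∀ j ∈ T, ∀ y : ℤ,
          ∑ x ∈ (s j).filter (fun x => y ≤ x ∧ (B : ℤ) * (x - y) ≤ (b : ℤ) ^ j), p j x ≤ 1 - η) →
        ∀ c : ℤ, |c| ≤ (B : ℤ) * (b : ℤ) ^ k →
          Prob k s p (fun x => ¬ Good ε ((k : ℝ) ^ J) ((k : ℤ) ^ W) (c + ∑ j, x j)) ≤
            1 / (k : ℝ) ^ U) ∧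
      (∀ A : ℕ → Finset ℕ, (∀ j < k, (A j).Nonempty ∧ ∀ a ∈ A j, a < b) →
        (∀ j ∈ T, 2 ≤ (A j).card) →
        (((range (b ^ k)).filter fun v : ℕ => (∀ j < k, v / b ^ j % b ∈ A j) ∧
            ¬ Good ε ((k : ℝ) ^ J) ((k : ℤ) ^ W) v).card : ℝ) ≤
          (∏ j ∈ range k, ((A j).card : ℝ)) / (k : ℝ) ^ U) := by
  have main : ∀ (B : ℕ), 1 ≤ B → ∀ η : ℝ, 0 < η → ∃ k₀ : ℕ, ∀ k : ℕ, k₀ ≤ k → ∀ T : Finset ℕ,
      Pool.Agent.Y885.Rich δ D k T → ∀ (s : ℕ → Finset ℤ) (p : ℕ → ℤ → ℝ) (c : ℤ),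
      (∀ j < k, (∀ x ∈ s j, 0 ≤ p j x ∧ |x| ≤ (B : ℤ) * (b : ℤ) ^ j) ∧ ∑ x ∈ s j, p j x = 1) →
      (∀ j ∈ T, ∀ y : ℤ,
        ∑ x ∈ s j, (if y ≤ x ∧ (B : ℤ) * (x - y) ≤ (b : ℤ) ^ j then p j x else 0) ≤ 1 - η) →
      |c| ≤ (B : ℤ) * (b : ℤ) ^ k →
      ∑ ω ∈ Fintype.piFinset (fun j : Fin k => s j),
        (if ¬ Good ε ((k : ℝ) ^ J) ((k : ℤ) ^ W) (c + ∑ j : Fin k, ω j) then
          ∏ j : Fin k, p j (ω j) else 0) ≤ 1 / (k : ℝ) ^ U := by
    intro B hB η hη
    obtain ⟨k₁, h1⟩ := Pool.Agent.P8H89.GM.mult b B D J W U 3 1 hb hB η δ (min ε (1 / 200)) hη hδ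
      (lt_min hε (by norm_num)) (Rep ε) (fun m hm _ hw => rep_of ε m hm hw)
    refine ⟨k₁, fun k hk T hT s p c hs hp hc => ?_⟩
    refine le_trans ?_ (h1 k hk T s p c hT hs hp hc)
    apply sum_le_sum
    intro ω hω
    have hp0 : 0 ≤ ∏ j : Fin k, p j (ω j) := by
      rw [Fintype.mem_piFinset] at hω
      exact prod_nonneg fun j _ => ((hs j j.2).1 _ (hω j)).1
    by_cases h3 : Good ε ((k : ℝ) ^ J) ((k : ℤ) ^ W) (c + ∑ j : Fin k, ω j)
    · rw [if_neg (not_not_intro h3)]
      split_ifs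
      · exact hp0
      · exact le_rfl
    · rw [if_pos h3, if_pos (bad_of ε J W k _ h3)]
  obtain ⟨k₁, h1⟩ := main B hB η hη
  obtain ⟨k₂, h2⟩ := main b (by omega) (1 / 2) (by norm_num)
  refine ⟨k₁ + k₂, fun k hk T hT => ?_⟩
  have hT' : Pool.Agent.Y885.Rich δ D k T := ⟨hT.lt, hT.low, hT.high, hT.all⟩
  refine ⟨fun s p hs hp c hc => ?_, fun A hA hAT => ?_⟩
  · refine le_trans (le_of_eq ?_) (h1 k (by omega) T hT' s p c hs
      (fun j hj y => by rw [← sum_filter]; exact hp j hj y) hc)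
    unfold Prob
    apply sum_congr rfl
    intro x _
    congr
  · have h3 := Pool.Agent.Y958.RM.rand_digits' b hb U k
      (fun z => ¬ Good ε ((k : ℝ) ^ J) ((k : ℤ) ^ W) z) T
      (fun s p c hs hp hc => by
        refine le_trans (le_of_eq ?_) (h2 k (by omega) T hT' s p c hs hp hc)
        apply sum_congr rfl
        intro x _
        congr) A hA hAT
    refine le_trans (le_of_eq ?_) h3
    congr

end Pool.Agent.Results.MP_92f640_nt.RandomSumModuli
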